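import Mathlib

/-!
The minimum Ramsey number `f(n)` of a graph with `n` vertices and no isolated vertex:
`f(n) = n + (1 + o(1)) log_2 n`.

Upper bound `f(n) ≤ n + log_2 n + 4` (theorem `f_upper`). Take a star forest with `k = ⌊log_2 n⌋`
stars `K_{1, s_0}, ..., K_{1, s_{k-1}}` whose sizes roughly halve from one star to the next, and
`n + k + 4` vertices. In one colour, embed the stars one after the other: a state has the centres
`c_0, ..., c_{i-1}`, each with a set of `s_l` leaves, and each centre `c_l` keeps `k - i` spare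
neighbours which are uncovered or leaves of later stars. A vertex `v` with at least
`s_i + k - i` uncovered neighbours becomes the next centre; if `v` is a leaf it is first freed
by a chain of replacements (`remove_lemma`). If the process is stuck at stage `i`, all vertices
outside a set of size `i` have few neighbours in a large set; this cannot happen in both colours,
by double counting (`not_both_stuck`).

Lower bound (known, Burr and Erdos; proved here for completeness): if the vertex cover number is
larger than `m`, colour with a red set of `m` dominating vertices; otherwise use a random colouring.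
-/

set_option autoImplicit false

namespace Pool.Agent.Results.MP_624632_co.MinRamseyAsymptotics

open Finset Classical


/-- Every colouring of the edges of the complete graph on `N` vertices with the colours red and
blue contains a monochromatic copy of `G`. Here `R` is the graph of the red edges, its complement
`Rᶜ` is the graph of the blue edges, and `G.IsContained R` says that some (not necessarily
induced) subgraph of `R` is isomorphic to `G`. -/
def Arrows (N : ℕ) {V : Type} (G : SimpleGraph V) : Prop :=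
  ∀ R : SimpleGraph (Fin N), G.IsContained R ∨ G.IsContained Rᶜ

/-- The Ramsey number `r(G)`: the least `N` such that every colouring of the edges of `K_N` with
two colours contains a monochromatic copy of `G` (it exists, see `arrows_ramseyNumber`). -/
noncomputable def ramseyNumber {V : Type} (G : SimpleGraph V) : ℕ :=
  sInf {N : ℕ | Arrows N G}

/-- No vertex of `G` is isolated. -/
def NoIsolated {V : Type} (G : SimpleGraph V) : Prop := ∀ v, ∃ w, G.Adj v w

/-- `f(n) = min r(G)` over all graphs `G` with exactly `n` vertices and no isolated vertex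
(for `n ≥ 2` the minimum exists, see `f_spec`). -/
noncomputable def f (n : ℕ) : ℕ :=
  sInf {r : ℕ | ∃ G : SimpleGraph (Fin n), NoIsolated G ∧ ramseyNumber G = r}

theorem Arrows.mono {N M : ℕ} (h : N ≤ M) {V : Type} {G : SimpleGraph V}
    (hG : Arrows N G) : Arrows M G := by
  intro R
  have key : ∀ Q : SimpleGraph (Fin M), G.IsContained (Q.comap (Fin.castLE h)) →
      G.IsContained Q := by
    intro Q hQ
    exact hQ.trans ⟨⟨⟨Fin.castLE h, fun {a b} hab => hab⟩, Fin.castLE_injective h⟩⟩
  rcases hG (R.comap (Fin.castLE h)) with h1 | h1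
  · exact Or.inl (key R h1)
  · refine Or.inr (key Rᶜ (h1.trans ?_))
    refine ⟨⟨⟨id, ?_⟩, Function.injective_id⟩⟩
    intro a b hab
    rw [SimpleGraph.compl_adj] at hab
    simp only [SimpleGraph.comap_adj, SimpleGraph.compl_adj, id]
    exact ⟨fun he => hab.1 (Fin.castLE_injective h he), hab.2⟩

theorem exists_seq : ∀ k n : ℕ, 2 * k ≤ n → n + 2 ≤ 2 ^ (k + 1) + 2 * k →
    ∃ a : ℕ → ℕ, a 0 = 0 ∧ a k = n ∧
      ∀ j < k, a j + 2 ≤ a (j + 1) ∧ a (j + 1) + 2 * j ≤ 2 * a j + 4 := by
  intro k
  induction k with
  | zero =>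
    intro n _ h2
    have : n = 0 := by
      norm_num at h2
      omega
    subst this
    exact ⟨fun _ => 0, rfl, rfl, by simp⟩
  | succ k ih =>
    intro n h1 h2
    have hpow : 2 ^ (k + 1 + 1) = 2 * 2 ^ (k + 1) := by ring
    have hpos : 2 ≤ 2 ^ (k + 1) := by
      have : 1 ≤ 2 ^ k := Nat.one_le_two_pow
      have e : 2 ^ (k + 1) = 2 * 2 ^ k := by ring
      omega
    obtain ⟨a, a0, ak, ha⟩ := ih (min (2 ^ (k + 1) + 2 * k - 2) (n - 2)) (by omega) (by omega)
    refine ⟨fun j => if j ≤ k then a j else n, by simp [a0], by simp, ?_⟩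
    intro j hj
    rcases Nat.lt_or_ge j k with hjk | hjk
    · have e1 : j ≤ k := hjk.le
      have e2 : j + 1 ≤ k := hjk
      simp only [e1, e2, if_true]
      exact ha j hjk
    · have : j = k := by omega
      subst this
      simp only [le_refl, if_true, show ¬ (j + 1 ≤ j) by omega, if_false]
      rw [ak]
      omega


section Packing

variable {V : Type} [Fintype V]

/-- Freeing a vertex `v` which is not a centre: the labels only decrease, the leaf sets keep
their sizes, and `v` gets the label `0`. -/
theorem remove_lemma (R : SimpleGraph V) (i : ℕ) (c : ℕ → V) (lam : V → ℕ)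
    (h1 : ∀ w, lam w ≤ i + 1)
    (h3 : ∀ l < i, ∀ w, lam w = l + 1 → R.Adj (c l) w)
    (h4 : ∀ l < i, ∃ w, R.Adj (c l) w ∧ l + 1 < lam w) :
    ∀ (d : ℕ) (v : V), lam v ≠ 0 → i + 1 - lam v = d →
      ∃ mu : V → ℕ, (∀ w, mu w ≤ lam w) ∧ mu v = 0 ∧
        (∀ w, w ≠ v → lam w ≤ lam v → mu w = lam w) ∧
        (∀ w, w ≠ v → lam w ≠ 0 → mu w ≠ 0) ∧
        (∀ l < i, ∀ w, mu w = l + 1 → R.Adj (c l) w) ∧
        (∀ l < i, (univ.filter (fun w => mu w = l + 1)).card
            = (univ.filter (fun w => lam w = l + 1)).card) ∧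
        (∀ l, (univ.filter (fun w => l < lam w)).card
            ≤ (univ.filter (fun w => l < mu w)).card + 1) := by
  intro d
  induction d using Nat.strong_induction_on with
  | _ d ih =>
    intro v hv hd
    rcases Nat.lt_or_ge (lam v) (i + 1) with hlt | hge
    · -- v is a leaf
      obtain ⟨j, hj⟩ : ∃ j, lam v = j + 1 := ⟨lam v - 1, by omega⟩
      have hji : j < i := by omega
      obtain ⟨r, hr1, hr2⟩ := h4 j hji
      have hrv : r ≠ v := by
        rintro rfl
        omega
      have hri := h1 r
      obtain ⟨nu, n1, n2, n3, n4, n5, n6, n7⟩ :=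
        ih (i + 1 - lam r) (by omega) r (by omega) rfl
      have hnv : nu v = j + 1 := by
        rw [n3 v hrv.symm (by omega), hj]
      refine ⟨fun w => nu (Equiv.swap r v w), ?_, ?_, ?_, ?_, ?_, ?_, ?_⟩
      · intro w
        by_cases hwr : w = r
        · subst hwr
          simp only [Equiv.swap_apply_left, hnv]
          omega
        · by_cases hwv : w = v
          · subst hwv
            simp only [Equiv.swap_apply_right, n2]
            omega
          · simp only [Equiv.swap_apply_of_ne_of_ne hwr hwv]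
            exact n1 w
      · simp only [Equiv.swap_apply_right, n2]
      · intro w hwv hle
        have hwr : w ≠ r := by
          rintro rfl
          omega
        simp only [Equiv.swap_apply_of_ne_of_ne hwr hwv]
        exact n3 w hwr (by omega)
      · intro w hwv hw0
        by_cases hwr : w = r
        · subst hwr
          simp only [Equiv.swap_apply_left, hnv]
          omega
        · simp only [Equiv.swap_apply_of_ne_of_ne hwr hwv]
          exact n4 w hwr hw0
      · intro l hl w hw
        by_cases hwr : w = r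
        · subst hwr
          simp only [Equiv.swap_apply_left, hnv] at hw
          have : l = j := by omega
          subst this
          exact hr1
        · by_cases hwv : w = v
          · subst hwv
            simp only [Equiv.swap_apply_right, n2] at hw
            omega
          · simp only [Equiv.swap_apply_of_ne_of_ne hwr hwv] at hw
            exact n5 l hl w hw
      · intro l hl
        rw [← n6 l hl]
        refine Finset.card_bij (fun w _ => Equiv.swap r v w) ?_ ?_ ?_
        · intro a ha
          simpa using ha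
        · intro a _ b _ hab
          exact (Equiv.swap r v).injective hab
        · intro b hb
          refine ⟨Equiv.swap r v b, ?_, by simp⟩
          simpa using hb
      · intro l
        refine (n7 l).trans ?_
        have : (univ.filter (fun w => l < nu w)).card
            = (univ.filter (fun w => l < nu (Equiv.swap r v w))).card := by
          symm
          refine Finset.card_bij (fun w _ => Equiv.swap r v w) ?_ ?_ ?_
          · intro a ha
            simpa using ha
          · intro a _ b _ hab
            exact (Equiv.swap r v).injective hab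
          · intro b hb
            refine ⟨Equiv.swap r v b, ?_, by simp⟩
            simpa using hb
        rw [this]
    · -- v is uncovered
      have hvi : lam v = i + 1 := le_antisymm (h1 v) hge
      refine ⟨fun w => if w = v then 0 else lam w, ?_, ?_, ?_, ?_, ?_, ?_, ?_⟩
      · intro w
        by_cases hwv : w = v <;> simp [hwv]
      · simp
      · intro w hwv _
        simp [hwv]
      · intro w hwv h0
        simpa [hwv] using h0
      · intro l hl w hw
        by_cases hwv : w = v
        · simp [hwv] at hw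
        · simp only [hwv, if_false] at hw
          exact h3 l hl w hw
      · intro l hl
        congr 1
        ext w
        by_cases hwv : w = v
        · subst hwv
          simp [hvi]
          omega
        · simp [hwv]
      · intro l
        have hsub : (univ.filter (fun w => l < lam w))
            ⊆ insert v (univ.filter (fun w => l < (if w = v then 0 else lam w))) := by
          intro w hw
          by_cases hwv : w = v
          · simp [hwv]
          · simp only [mem_filter, mem_univ, true_and] at hw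
            simp [hwv, hw]
        exact (Finset.card_le_card hsub).trans (Finset.card_insert_le _ _)

/-- A packing of the first `i` stars. Label `0` marks a centre, label `l + 1` with
`l < i` marks a leaf of the star number `l`, label `i + 1` marks a vertex not used. -/
structure Pack (R : SimpleGraph V) (k t : ℕ) (s ρ : ℕ → ℕ) (i : ℕ)
    (c : ℕ → V) (lam : V → ℕ) : Prop where
  le : ∀ w, lam w ≤ i + 1
  zero : ∀ w, lam w = 0 ↔ ∃ l < i, w = c l
  inj : ∀ a < i, ∀ b < i, c a = c b → a = b
  adj : ∀ l < i, ∀ w, lam w = l + 1 → R.Adj (c l) w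
  size : ∀ l < i, (univ.filter (fun w => lam w = l + 1)).card = s l
  free : ρ i + t ≤ (univ.filter (fun w => lam w = i + 1)).card
  extra : ∀ l < i, k - i ≤ (univ.filter (fun w => R.Adj (c l) w ∧ l + 1 < lam w)).card

/-- The packing process is stuck at stage `i`. -/
def Stuck (R : SimpleGraph V) (k t : ℕ) (s ρ : ℕ → ℕ) (i : ℕ) : Prop :=
  ∃ C U : Finset V, C.card = i ∧ ρ i + t ≤ U.card ∧
    ∀ v, v ∉ C → (U.filter (fun w => R.Adj v w)).card < s i + (k - i)

theorem pack_zero (R : SimpleGraph V) (k t : ℕ) (s ρ : ℕ → ℕ) (v₀ : V)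
    (hV : ρ 0 + t ≤ Fintype.card V) :
    Pack R k t s ρ 0 (fun _ => v₀) (fun _ => 1) where
  le := by simp
  zero := by simp
  inj := by simp
  adj := by simp
  size := by simp
  free := by simpa using hV
  extra := by simp

theorem card_zero_eq {R : SimpleGraph V} {k t : ℕ} {s ρ : ℕ → ℕ} {i : ℕ}
    {c : ℕ → V} {lam : V → ℕ} (h : Pack R k t s ρ i c lam) :
    (univ.filter (fun w => lam w = 0)).card = i := by
  have : univ.filter (fun w => lam w = 0) = (range i).image c := by
    ext w
    simp only [mem_filter, mem_univ, true_and, mem_image, mem_range]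
    rw [h.zero w]
    constructor
    · rintro ⟨l, hl, rfl⟩
      exact ⟨l, hl, rfl⟩
    · rintro ⟨l, hl, rfl⟩
      exact ⟨l, hl, rfl⟩
  rw [this, Finset.card_image_of_injOn, card_range]
  intro a ha b hb hab
  exact h.inj a (by simpa using ha) b (by simpa using hb) hab

theorem filter_loss {α : Type*} (A B : Finset α) (hBA : B ⊆ A) (h : A.card ≤ B.card + 1)
    (P : α → Prop) : (A.filter P).card ≤ (B.filter P).card + 1 := by
  have h1 : A.filter P ⊆ B.filter P ∪ (A \ B) := by
    intro x hx
    simp only [mem_filter] at hx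
    simp only [mem_union, mem_filter, mem_sdiff]
    by_cases hxB : x ∈ B
    · exact Or.inl ⟨hxB, hx.2⟩
    · exact Or.inr ⟨hx.1, hxB⟩
  have h2 := (Finset.card_le_card h1).trans (Finset.card_union_le _ _)
  rw [Finset.card_sdiff_of_subset hBA] at h2
  omega

theorem pack_step (R : SimpleGraph V) (k t : ℕ) (s ρ : ℕ → ℕ) (i : ℕ) (hik : i < k)
    (hρ : ρ i = ρ (i + 1) + s i + 1)
    (c : ℕ → V) (lam : V → ℕ) (h : Pack R k t s ρ i c lam) :
    (∃ c' lam', Pack R k t s ρ (i + 1) c' lam') ∨ Stuck R k t s ρ i := by
  by_cases hst : ∀ v, v ∉ univ.filter (fun w => lam w = 0) →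
      ((univ.filter (fun w => lam w = i + 1)).filter (fun w => R.Adj v w)).card < s i + (k - i)
  · exact Or.inr ⟨_, _, card_zero_eq h, h.free, hst⟩
  left
  push Not at hst
  obtain ⟨v, hv0, hdeg⟩ := hst
  have hv : lam v ≠ 0 := by simpa using hv0
  have h4 : ∀ l < i, ∃ w, R.Adj (c l) w ∧ l + 1 < lam w := by
    intro l hl
    have := h.extra l hl
    have hpos : 0 < (univ.filter (fun w => R.Adj (c l) w ∧ l + 1 < lam w)).card := by omega
    obtain ⟨w, hw⟩ := Finset.card_pos.mp hpos
    exact ⟨w, by simpa using hw⟩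
  obtain ⟨mu, m1, m2, m3, m4, m5, m6, m7⟩ :=
    remove_lemma R i c lam h.le h.adj h4 _ v hv rfl
  -- uncovered after removal
  have hfree : ρ i + t ≤ (univ.filter (fun w => mu w = i + 1)).card + 1 := by
    have h7 := m7 i
    have e1 : univ.filter (fun w => i < lam w) = univ.filter (fun w => lam w = i + 1) := by
      ext w
      have := h.le w
      simp only [mem_filter, mem_univ, true_and]
      omega
    have e2 : univ.filter (fun w => i < mu w) = univ.filter (fun w => mu w = i + 1) := by
      ext w
      have := h.le w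
      have := m1 w
      simp only [mem_filter, mem_univ, true_and]
      omega
    rw [e1, e2] at h7
    exact h.free.trans h7
  have hmui : ∀ w, mu w ≤ i + 1 := fun w => (m1 w).trans (h.le w)
  -- degree after removal
  have hdeg' : s i + (k - i) ≤
      ((univ.filter (fun w => mu w = i + 1)).filter (fun w => R.Adj v w)).card + 1 := by
    refine hdeg.trans (filter_loss _ _ ?_ ?_ _)
    · intro w hw
      simp only [mem_filter, mem_univ, true_and] at hw ⊢
      have := h.le w
      have := m1 w
      omega
    · have h7 := m7 i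
      have e1 : univ.filter (fun w => i < lam w) = univ.filter (fun w => lam w = i + 1) := by
        ext w
        have := h.le w
        simp only [mem_filter, mem_univ, true_and]
        omega
      have e2 : univ.filter (fun w => i < mu w) = univ.filter (fun w => mu w = i + 1) := by
        ext w
        have := h.le w
        have := m1 w
        simp only [mem_filter, mem_univ, true_and]
        omega
      rw [e1, e2] at h7
      exact h7
  obtain ⟨T, hTsub, hTcard⟩ := Finset.exists_subset_card_eq
    (show s i ≤ ((univ.filter (fun w => mu w = i + 1)).filter (fun w => R.Adj v w)).card by omega)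
  have hT1 : ∀ w ∈ T, mu w = i + 1 := by
    intro w hw
    have := hTsub hw
    simp only [mem_filter, mem_univ, true_and] at this
    exact this.1
  have hT2 : ∀ w ∈ T, R.Adj v w := by
    intro w hw
    have := hTsub hw
    simp only [mem_filter, mem_univ, true_and] at this
    exact this.2
  have hcv : ∀ l < i, c l ≠ v := by
    intro l hl hcl
    exact hv ((h.zero v).mpr ⟨l, hl, hcl.symm⟩)
  -- new labels
  set nu : V → ℕ := fun w => if mu w = i + 1 ∧ w ∉ T then i + 2 else mu w with hnu
  have nu1 : ∀ w, mu w = i + 1 → w ∉ T → nu w = i + 2 := by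
    intro w h1 h2
    simp [hnu, h1, h2]
  have nu2 : ∀ w, w ∈ T → nu w = i + 1 := by
    intro w h1
    simp [hnu, h1, hT1 w h1]
  have nu3 : ∀ w, mu w ≤ i → nu w = mu w := by
    intro w h1
    have : mu w ≠ i + 1 := by omega
    simp [hnu, this]
  refine ⟨fun l => if l = i then v else c l, nu, ?_, ?_, ?_, ?_, ?_, ?_, ?_⟩
  · intro w
    have := hmui w
    simp only [hnu]
    split_ifs <;> omega
  · intro w
    have hmuz : nu w = 0 ↔ mu w = 0 := by
      by_cases h1 : mu w = i + 1
      · by_cases hwT : w ∈ T
        · rw [nu2 w hwT]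
          omega
        · rw [nu1 w h1 hwT]
          omega
      · have := hmui w
        rw [nu3 w (by omega)]
    rw [hmuz]
    constructor
    · intro hw
      by_cases hwv : w = v
      · exact ⟨i, by omega, by simp [hwv]⟩
      · have : lam w = 0 := by
          by_contra hne
          exact m4 w hwv hne hw
        obtain ⟨l, hl, hwl⟩ := (h.zero w).mp this
        refine ⟨l, by omega, ?_⟩
        have : l ≠ i := by omega
        simp [this, hwl]
    · rintro ⟨l, hl, hwl⟩
      by_cases hli : l = i
      · simp only [hli, if_true] at hwl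
        rw [hwl, m2]
      · simp only [hli, if_false] at hwl
        have : lam w = 0 := (h.zero w).mpr ⟨l, by omega, hwl⟩
        have := m1 w
        omega
  · intro a ha b hb hab
    by_cases ha' : a = i
    · by_cases hb' : b = i
      · omega
      · simp only [ha', hb', if_true, if_false] at hab
        exact absurd hab.symm (hcv b (by omega))
    · by_cases hb' : b = i
      · simp only [ha', hb', if_true, if_false] at hab
        exact absurd hab (hcv a (by omega))
      · simp only [ha', hb', if_false] at hab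
        exact h.inj a (by omega) b (by omega) hab
  · intro l hl w hw
    by_cases hli : l = i
    · subst hli
      simp only [if_true]
      by_cases hwT : w ∈ T
      · exact hT2 w hwT
      · exfalso
        by_cases hmw : mu w = l + 1
        · have := nu1 w hmw hwT
          omega
        · have := hmui w
          have := nu3 w (by omega)
          omega
    · simp only [hli, if_false]
      have hl' : l < i := by omega
      have hmw : mu w ≤ i := by
        by_contra hcon
        have : mu w = i + 1 := by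
          have := hmui w
          omega
        by_cases hwT : w ∈ T
        · have := nu2 w hwT
          omega
        · have := nu1 w this hwT
          omega
      have := nu3 w hmw
      exact m5 l hl' w (by omega)
  · intro l hl
    by_cases hli : l = i
    · subst hli
      have : univ.filter (fun w => nu w = l + 1) = T := by
        ext w
        simp only [mem_filter, mem_univ, true_and]
        constructor
        · intro hw
          by_contra hwT
          by_cases hmw : mu w = l + 1
          · have := nu1 w hmw hwT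
            omega
          · have := hmui w
            have := nu3 w (by omega)
            omega
        · exact nu2 w
      rw [this, hTcard]
    · have hl' : l < i := by omega
      rw [← h.size l hl', ← m6 l hl']
      congr 1
      ext w
      simp only [mem_filter, mem_univ, true_and]
      by_cases hmw : mu w = i + 1
      · by_cases hwT : w ∈ T
        · have := nu2 w hwT
          omega
        · have := nu1 w hmw hwT
          omega
      · have := hmui w
        rw [nu3 w (by omega)]
  · have e : (univ.filter (fun w => mu w = i + 1)) \ T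
        = univ.filter (fun w => nu w = i + 1 + 1) := by
      ext w
      simp only [mem_sdiff, mem_filter, mem_univ, true_and]
      constructor
      · rintro ⟨h1, h2⟩
        exact nu1 w h1 h2
      · intro hw
        by_cases hmw : mu w = i + 1
        · refine ⟨hmw, ?_⟩
          intro hwT
          have := nu2 w hwT
          omega
        · have := hmui w
          have := nu3 w (by omega)
          omega
    rw [← e, Finset.card_sdiff_of_subset (hTsub.trans (Finset.filter_subset _ _)), hTcard]
    omega
  · intro l hl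
    by_cases hli : l = i
    · subst hli
      simp only [if_true]
      have hsub : ((univ.filter (fun w => mu w = l + 1)).filter (fun w => R.Adj v w)) \ T
          ⊆ univ.filter (fun w => R.Adj v w ∧ l + 1 < nu w) := by
        intro w hw
        simp only [mem_sdiff, mem_filter, mem_univ, true_and] at hw ⊢
        refine ⟨hw.1.2, ?_⟩
        rw [nu1 w hw.1.1 hw.2]
        omega
      have := Finset.card_le_card hsub
      rw [Finset.card_sdiff_of_subset hTsub, hTcard] at this
      omega
    · have hl' : l < i := by omega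
      simp only [hli, if_false]
      have hx := h.extra l hl'
      have hloss := filter_loss (univ.filter (fun w => l + 1 < lam w))
        (univ.filter (fun w => l + 1 < mu w)) (by
          intro w hw
          simp only [mem_filter, mem_univ, true_and] at hw ⊢
          have := m1 w
          omega) (m7 (l + 1)) (fun w => R.Adj (c l) w)
      have e1 : (univ.filter (fun w => l + 1 < lam w)).filter (fun w => R.Adj (c l) w)
          = univ.filter (fun w => R.Adj (c l) w ∧ l + 1 < lam w) := by
        ext w
        simp only [mem_filter, mem_univ, true_and]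
        tauto
      have e2 : (univ.filter (fun w => l + 1 < mu w)).filter (fun w => R.Adj (c l) w)
          = univ.filter (fun w => R.Adj (c l) w ∧ l + 1 < nu w) := by
        ext w
        simp only [mem_filter, mem_univ, true_and]
        have : l + 1 < mu w ↔ l + 1 < nu w := by
          by_cases hmw : mu w = i + 1
          · by_cases hwT : w ∈ T
            · have := nu2 w hwT
              omega
            · have := nu1 w hmw hwT
              omega
          · have := hmui w
            rw [nu3 w (by omega)]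
        tauto
      rw [e1, e2] at hloss
      omega

theorem pack_or_stuck (R : SimpleGraph V) (k t : ℕ) (s ρ : ℕ → ℕ)
    (hρ : ∀ i < k, ρ i = ρ (i + 1) + s i + 1)
    (hV : ρ 0 + t ≤ Fintype.card V) (v₀ : V) :
    ∀ i ≤ k, (∃ c lam, Pack R k t s ρ i c lam) ∨ ∃ j < k, Stuck R k t s ρ j := by
  intro i
  induction i with
  | zero => intro _; exact Or.inl ⟨_, _, pack_zero R k t s ρ v₀ hV⟩
  | succ i ih =>
    intro hi
    rcases ih (by omega) with ⟨c, lam, h⟩ | h
    · rcases pack_step R k t s ρ i (by omega) (hρ i (by omega)) c lam h with h' | h'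
      · exact Or.inl h'
      · exact Or.inr ⟨i, by omega, h'⟩
    · exact Or.inr h

/-- A colour and the complementary colour cannot both be stuck. -/
theorem not_both_stuck (R B : SimpleGraph V) (hRB : ∀ v u, v ≠ u → ¬ R.Adj u v → B.Adj v u)
    (k t : ℕ) (s ρ : ℕ → ℕ)
    (hc : ∀ i < k, 2 * (s i + (k - i)) + k ≤ ρ i + t)
    (i m : ℕ) (hi : i < k) (hm : m < k)
    (h1 : Stuck R k t s ρ i) (h2 : Stuck B k t s ρ m) : False := by
  obtain ⟨C, A, hC, hA, h1⟩ := h1
  obtain ⟨C', U, hC', hU, h2⟩ := h2
  set A' := A \ C' with hA'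
  set U' := U \ C with hU'
  have cA : A.card ≤ A'.card + m := by
    have : A.card - C'.card ≤ A'.card := Finset.le_card_sdiff C' A
    omega
  have cU : U.card ≤ U'.card + i := by
    have : U.card - C.card ≤ U'.card := Finset.le_card_sdiff C U
    omega
  have e1 := hc i hi
  have e2 := hc m hm
  have a1 : 2 * (s i + (k - i)) + 1 ≤ A'.card := by omega
  have a2 : 2 * (s m + (k - m)) + 1 ≤ U'.card := by omega
  -- count red pairs
  have r1 : ((A' ×ˢ U').filter (fun p => R.Adj p.2 p.1)).card
      ≤ U'.card * (s i + (k - i) - 1) := by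
    have : ((A' ×ˢ U').filter (fun p => R.Adj p.2 p.1)).card
        = ∑ u ∈ U', (A'.filter (fun v => R.Adj u v)).card := by
      rw [Finset.card_filter, Finset.sum_product_right]
      refine Finset.sum_congr rfl fun u _ => ?_
      rw [Finset.card_filter]
    rw [this, ← smul_eq_mul]
    refine Finset.sum_le_card_nsmul _ _ _ fun u hu => ?_
    have hu' : u ∉ C := (Finset.mem_sdiff.mp hu).2
    have := h1 u hu'
    have h3 : (A'.filter (fun v => R.Adj u v)).card ≤ (A.filter (fun v => R.Adj u v)).card :=
      Finset.card_le_card (Finset.filter_subset_filter _ Finset.sdiff_subset)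
    omega
  have r2 : ((A' ×ˢ U').filter (fun p => B.Adj p.1 p.2)).card
      ≤ A'.card * (s m + (k - m) - 1) := by
    have : ((A' ×ˢ U').filter (fun p => B.Adj p.1 p.2)).card
        = ∑ v ∈ A', (U'.filter (fun u => B.Adj v u)).card := by
      rw [Finset.card_filter, Finset.sum_product]
      refine Finset.sum_congr rfl fun u _ => ?_
      rw [Finset.card_filter]
    rw [this, ← smul_eq_mul]
    refine Finset.sum_le_card_nsmul _ _ _ fun v hv => ?_
    have hv' : v ∉ C' := (Finset.mem_sdiff.mp hv).2
    have := h2 v hv'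
    have h3 : (U'.filter (fun u => B.Adj v u)).card ≤ (U.filter (fun u => B.Adj v u)).card :=
      Finset.card_le_card (Finset.filter_subset_filter _ Finset.sdiff_subset)
    omega
  have r3 : ((A' ×ˢ U').filter (fun p => p.1 = p.2)).card ≤ A'.card := by
    refine Finset.card_le_card_of_injOn (fun p => p.1) ?_ ?_
    · intro p hp
      simp only [coe_filter, Set.mem_ofPred_eq, mem_product] at hp
      exact hp.1.1
    · intro p hp q hq hpq
      simp only [coe_filter, Set.mem_ofPred_eq, mem_product] at hp hq
      ext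
      · exact hpq
      · rw [← hp.2, ← hq.2]
        exact hpq
  have r4 : A' ×ˢ U' ⊆ (A' ×ˢ U').filter (fun p => R.Adj p.2 p.1) ∪
      ((A' ×ˢ U').filter (fun p => B.Adj p.1 p.2) ∪ (A' ×ˢ U').filter (fun p => p.1 = p.2)) := by
    intro p hp
    simp only [mem_union, mem_filter, hp, true_and]
    by_cases h : p.1 = p.2
    · exact Or.inr (Or.inr h)
    · by_cases h' : R.Adj p.2 p.1
      · exact Or.inl h'
      · refine Or.inr (Or.inl ?_)
        exact hRB _ _ h h'
  have r5 : A'.card * U'.card ≤ U'.card * (s i + (k - i) - 1) + (A'.card * (s m + (k - m) - 1)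
      + A'.card) := by
    have := Finset.card_le_card r4
    rw [Finset.card_product] at this
    refine this.trans ((Finset.card_union_le _ _).trans ?_)
    refine Nat.add_le_add r1 ((Finset.card_union_le _ _).trans (Nat.add_le_add r2 r3))
  have p1 : 1 ≤ s i + (k - i) := by omega
  have p2 : 1 ≤ s m + (k - m) := by omega
  obtain ⟨x, hx⟩ : ∃ x, s i + (k - i) = x + 1 := ⟨s i + (k - i) - 1, by omega⟩
  obtain ⟨y, hy⟩ : ∃ y, s m + (k - m) = y + 1 := ⟨s m + (k - m) - 1, by omega⟩
  rw [hx] at a1 r5
  rw [hy] at a2 r5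
  simp only [Nat.add_sub_cancel] at r5
  nlinarith [Nat.mul_le_mul_left (A'.card) a2, Nat.mul_le_mul_left (U'.card) a1]

/-- The star forest with stars `K_{1, s 0}, ..., K_{1, s (k-1)}`; the vertex `⟨i, none⟩`
is the centre of the star number `i`. -/
def starForest (k : ℕ) (s : ℕ → ℕ) : SimpleGraph (Σ i : Fin k, Option (Fin (s i))) where
  Adj x y := x.1 = y.1 ∧ ((x.2 = none ∧ y.2 ≠ none) ∨ (x.2 ≠ none ∧ y.2 = none))
  symm := ⟨by
    rintro x y ⟨h1, h2⟩
    exact ⟨h1.symm, h2.elim (fun h => Or.inr ⟨h.2, h.1⟩) (fun h => Or.inl ⟨h.2, h.1⟩)⟩⟩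
  loopless := ⟨by
    rintro x ⟨_, h⟩
    rcases h with h | h
    · exact h.2 h.1
    · exact h.1 h.2⟩

theorem contained_of_pack (R : SimpleGraph V) (k t : ℕ) (s ρ : ℕ → ℕ)
    (c : ℕ → V) (lam : V → ℕ) (h : Pack R k t s ρ k c lam) :
    (starForest k s).IsContained R := by
  have hex : ∀ i : Fin k, Nonempty (Fin (s i) ≃ {w // w ∈ univ.filter (fun w => lam w = (i : ℕ) + 1)}) := by
    intro i
    refine ⟨Fintype.equivOfCardEq ?_⟩
    rw [Fintype.card_fin, Fintype.card_coe, h.size i i.2]
  let e := fun i => Classical.choice (hex i)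
  let φ : (Σ i : Fin k, Option (Fin (s i))) → V := fun x =>
    match x with
    | ⟨i, none⟩ => c i
    | ⟨i, some a⟩ => (e i a : V)
  have hlab : ∀ (i : Fin k) (a : Fin (s i)), lam (e i a : V) = (i : ℕ) + 1 := by
    intro i a
    exact (Finset.mem_filter.mp (e i a).2).2
  have hzero : ∀ i : Fin k, lam (c i) = 0 := fun i => (h.zero _).mpr ⟨i, i.2, rfl⟩
  refine ⟨⟨⟨φ, ?_⟩, ?_⟩⟩
  · rintro ⟨i, a⟩ ⟨j, b⟩ ⟨h1, h2⟩
    simp only at h1
    subst h1
    rcases a with _ | a
    · rcases b with _ | b
      · simp at h2
      · exact h.adj i i.2 _ (hlab i b)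
    · rcases b with _ | b
      · exact (h.adj i i.2 _ (hlab i a)).symm
      · simp at h2
  · rintro ⟨i, a⟩ ⟨j, b⟩ hab
    change φ ⟨i, a⟩ = φ ⟨j, b⟩ at hab
    rcases a with _ | a
    · rcases b with _ | b
      · have : (i : ℕ) = j := h.inj i i.2 j j.2 hab
        have : i = j := Fin.ext this
        subst this
        rfl
      · exfalso
        have h1 := hzero i
        have h2 := hlab j b
        have h3 : c i = (e j b : V) := hab
        rw [h3, h2] at h1
        omega
    · rcases b with _ | b
      · exfalso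
        have h1 := hzero j
        have h2 := hlab i a
        have h3 : (e i a : V) = c j := hab
        rw [← h3, h2] at h1
        omega
      · have h1 := hlab i a
        have h2 := hlab j b
        have h3 : (e i a : V) = (e j b : V) := hab
        rw [h3, h2] at h1
        have : i = j := Fin.ext (by omega)
        subst this
        have h4 : e i a = e i b := Subtype.ext h3
        rw [(e i).injective h4]

theorem ramsey_starForest (k t : ℕ) (s ρ : ℕ → ℕ)
    (hρ : ∀ i < k, ρ i = ρ (i + 1) + s i + 1)
    (hc : ∀ i < k, 2 * (s i + (k - i)) + k ≤ ρ i + t)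
    (hV : ρ 0 + t ≤ Fintype.card V) (hpos : 0 < Fintype.card V) (R : SimpleGraph V) :
    (starForest k s).IsContained R ∨ (starForest k s).IsContained Rᶜ := by
  obtain ⟨v₀⟩ : Nonempty V := Fintype.card_pos_iff.mp hpos
  rcases pack_or_stuck R k t s ρ hρ hV v₀ k le_rfl with ⟨c, lam, h⟩ | ⟨i, hi, h1⟩
  · exact Or.inl (contained_of_pack R k t s ρ c lam h)
  · rcases pack_or_stuck Rᶜ k t s ρ hρ hV v₀ k le_rfl with ⟨c, lam, h⟩ | ⟨m, hm, h2⟩
    · exact Or.inr (contained_of_pack Rᶜ k t s ρ c lam h)
    · exact (not_both_stuck R Rᶜ (fun v u hvu hR => by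
        rw [SimpleGraph.compl_adj]
        exact ⟨hvu, fun h => hR h.symm⟩) k t s ρ hc i m hi hm h1 h2).elim

theorem card_starForest (s ρ : ℕ → ℕ) : ∀ k : ℕ,
    (∀ i < k, ρ i = ρ (i + 1) + s i + 1) →
    Fintype.card (Σ i : Fin k, Option (Fin (s i))) + ρ k = ρ 0 := by
  intro k hk
  rw [Fintype.card_sigma]
  simp only [Fintype.card_option, Fintype.card_fin]
  rw [Fin.sum_univ_eq_sum_range (fun i => s i + 1) k]
  induction k with
  | zero => simp
  | succ k ih =>
    rw [Finset.sum_range_succ, ← ih (fun i hi => hk i (by omega)), hk k (by omega)]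
    omega

end Packing

theorem upper_arrows (k n : ℕ) (h1 : 2 * k ≤ n) (h2 : n + 2 ≤ 2 ^ (k + 1) + 2 * k) (hn : 0 < n) :
    ∃ G : SimpleGraph (Fin n), NoIsolated G ∧ Arrows (n + (k + 4)) G := by
  obtain ⟨a, a0, ak, ha⟩ := exists_seq k n h1 h2
  set s : ℕ → ℕ := fun i => a (k - i) - a (k - i - 1) - 1 with hs
  set ρ : ℕ → ℕ := fun i => a (k - i) with hρ
  have hstep : ∀ i < k, a (k - i - 1) + 2 ≤ a (k - i) ∧
      a (k - i) + 2 * (k - i - 1) ≤ 2 * a (k - i - 1) + 4 := by
    intro i hi
    have := ha (k - i - 1) (by omega)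
    rwa [show k - i - 1 + 1 = k - i by omega] at this
  have hρ1 : ∀ i < k, ρ i = ρ (i + 1) + s i + 1 := by
    intro i hi
    have := hstep i hi
    simp only [hρ, hs]
    rw [show k - (i + 1) = k - i - 1 by omega]
    omega
  have hs1 : ∀ i < k, 1 ≤ s i := by
    intro i hi
    have := hstep i hi
    simp only [hs]
    omega
  have hc : ∀ i < k, 2 * (s i + (k - i)) + k ≤ ρ i + (k + 4) := by
    intro i hi
    have := hstep i hi
    simp only [hρ, hs]
    omega
  have hρ0 : ρ 0 = n := by simp [hρ, ak]
  have hρk : ρ k = 0 := by simp [hρ, a0]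
  have hcard : Fintype.card (Σ i : Fin k, Option (Fin (s i))) = n := by
    have := card_starForest s ρ k hρ1
    rw [hρk, hρ0] at this
    simpa using this
  let e : Fin n ≃ (Σ i : Fin k, Option (Fin (s i))) :=
    (Fintype.equivFinOfCardEq hcard).symm
  refine ⟨(starForest k s).comap e, ?_, ?_⟩
  · intro v
    have hex : ∃ y, (starForest k s).Adj (e v) y := by
      rcases hev : e v with ⟨i, x⟩
      rcases x with _ | x
      · exact ⟨⟨i, some ⟨0, hs1 i i.2⟩⟩, rfl, Or.inl ⟨rfl, by simp⟩⟩
      · exact ⟨⟨i, none⟩, rfl, Or.inr ⟨by simp, rfl⟩⟩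
    obtain ⟨y, hy⟩ := hex
    exact ⟨e.symm y, by simpa using hy⟩
  · intro R
    have hcont : ((starForest k s).comap e).IsContained (starForest k s) :=
      ⟨⟨⟨e, fun {a b} hab => hab⟩, e.injective⟩⟩
    rcases ramsey_starForest k (k + 4) s ρ hρ1 hc (by rw [hρ0]; simp) (by simp) R with h | h
    · exact Or.inl (hcont.trans h)
    · exact Or.inr (hcont.trans h)

theorem f_upper (n : ℕ) (hn : 2 ≤ n) : f n ≤ n + (Nat.log 2 n + 4) := by
  set k := Nat.log 2 n with hk
  have hk1 : 1 ≤ k := by
    rw [hk]
    exact Nat.log_pos (by norm_num) hn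
  have hlow : 2 ^ k ≤ n := Nat.pow_log_le_self 2 (by omega)
  have hup : n < 2 ^ (k + 1) := Nat.lt_pow_succ_log_self (by norm_num) n
  have h2k : 2 * k ≤ 2 ^ k := by
    clear_value k
    clear hk hlow hup
    induction k, hk1 using Nat.le_induction with
    | base => norm_num
    | succ m hm ih =>
      have : 2 ^ (m + 1) = 2 * 2 ^ m := by ring
      have : 2 ≤ 2 ^ m := by
        have := Nat.pow_le_pow_right (show 0 < 2 by norm_num) hm
        simpa using this
      omega
  obtain ⟨G, hG, hA⟩ := upper_arrows k n (by omega) (by omega) (by omega)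
  have e1 : f n ≤ ramseyNumber G := Nat.sInf_le ⟨G, hG, rfl⟩
  have e2 : ramseyNumber G ≤ n + (k + 4) := Nat.sInf_le hA
  exact e1.trans e2

theorem ramsey_aux {V : Type} (R : SimpleGraph V) : ∀ (m a b : ℕ), a + b = m →
    ∀ X : Finset V, 2 ^ m ≤ X.card →
      (∃ S ⊆ X, S.card = a ∧ ∀ x ∈ S, ∀ y ∈ S, x ≠ y → R.Adj x y) ∨
      (∃ S ⊆ X, S.card = b ∧ ∀ x ∈ S, ∀ y ∈ S, x ≠ y → Rᶜ.Adj x y) := by
  intro m
  induction m with
  | zero =>
    intro a b hab X _
    exact Or.inl ⟨∅, by simp, by simp; omega, by simp⟩
  | succ m ih =>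
    intro a b hab X hX
    rcases Nat.eq_zero_or_pos a with ha | ha
    · exact Or.inl ⟨∅, by simp, by simp [ha], by simp⟩
    rcases Nat.eq_zero_or_pos b with hb | hb
    · exact Or.inr ⟨∅, by simp, by simp [hb], by simp⟩
    have hXpos : 0 < X.card := lt_of_lt_of_le (by positivity) hX
    obtain ⟨x, hx⟩ := Finset.card_pos.mp hXpos
    have hsplit : ((X.erase x).filter (fun y => R.Adj x y)).card
        + ((X.erase x).filter (fun y => ¬ R.Adj x y)).card = X.card - 1 := by
      rw [Finset.card_filter_add_card_filter_not, Finset.card_erase_of_mem hx]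
    have hpow : 2 ^ (m + 1) = 2 * 2 ^ m := by ring
    rcases Nat.lt_or_ge ((X.erase x).filter (fun y => R.Adj x y)).card (2 ^ m) with hlt | hge
    · have hge' : 2 ^ m ≤ ((X.erase x).filter (fun y => ¬ R.Adj x y)).card := by omega
      rcases ih a (b - 1) (by omega) _ hge' with ⟨S, hS, hc, hadj⟩ | ⟨S, hS, hc, hadj⟩
      · exact Or.inl ⟨S, hS.trans ((Finset.filter_subset _ _).trans (Finset.erase_subset _ _)),
          hc, hadj⟩
      · have hxS : x ∉ S := fun h => by
          have := hS h
          simp at this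
        refine Or.inr ⟨insert x S, ?_, ?_, ?_⟩
        · intro y hy
          rcases Finset.mem_insert.mp hy with rfl | hy
          · exact hx
          · have := hS hy
            simp only [mem_filter, mem_erase] at this
            exact this.1.2
        · rw [Finset.card_insert_of_notMem hxS, hc]
          omega
        · intro y hy z hz hyz
          rcases Finset.mem_insert.mp hy with hy1 | hy1
          · rcases Finset.mem_insert.mp hz with hz1 | hz1
            · exact absurd (hy1.trans hz1.symm) hyz
            · have := hS hz1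
              simp only [mem_filter, mem_erase] at this
              rw [SimpleGraph.compl_adj, hy1]
              exact ⟨this.1.1.symm, this.2⟩
          · rcases Finset.mem_insert.mp hz with hz1 | hz1
            · have := hS hy1
              simp only [mem_filter, mem_erase] at this
              rw [SimpleGraph.compl_adj, hz1]
              exact ⟨this.1.1, fun h => this.2 h.symm⟩
            · exact hadj y hy1 z hz1 hyz
    · rcases ih (a - 1) b (by omega) _ hge with ⟨S, hS, hc, hadj⟩ | ⟨S, hS, hc, hadj⟩
      · have hxS : x ∉ S := fun h => by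
          have := hS h
          simp at this
        refine Or.inl ⟨insert x S, ?_, ?_, ?_⟩
        · intro y hy
          rcases Finset.mem_insert.mp hy with rfl | hy
          · exact hx
          · have := hS hy
            simp only [mem_filter, mem_erase] at this
            exact this.1.2
        · rw [Finset.card_insert_of_notMem hxS, hc]
          omega
        · intro y hy z hz hyz
          rcases Finset.mem_insert.mp hy with hy1 | hy1
          · rcases Finset.mem_insert.mp hz with hz1 | hz1
            · exact absurd (hy1.trans hz1.symm) hyz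
            · have := hS hz1
              simp only [mem_filter, mem_erase] at this
              rw [hy1]
              exact this.2
          · rcases Finset.mem_insert.mp hz with hz1 | hz1
            · have := hS hy1
              simp only [mem_filter, mem_erase] at this
              rw [hz1]
              exact this.2.symm
            · exact hadj y hy1 z hz1 hyz
      · exact Or.inr ⟨S, hS.trans ((Finset.filter_subset _ _).trans (Finset.erase_subset _ _)),
          hc, hadj⟩

theorem contained_of_clique {V : Type} {n : ℕ} (G : SimpleGraph (Fin n)) (R : SimpleGraph V)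
    (S : Finset V) (hS : S.card = n) (h : ∀ x ∈ S, ∀ y ∈ S, x ≠ y → R.Adj x y) :
    G.IsContained R := by
  have hc : Fintype.card (Fin n) = Fintype.card S := by simp [hS]
  let e := Fintype.equivOfCardEq hc
  refine ⟨⟨⟨fun i => (e i : V), ?_⟩, ?_⟩⟩
  · intro a b hab
    refine h _ (e a).2 _ (e b).2 ?_
    intro he
    exact hab.ne (e.injective (Subtype.ext he))
  · intro a b hab
    exact e.injective (Subtype.ext hab)

/-- Ramsey's theorem: the set defining `r(G)` is not empty. -/
theorem arrows_four_pow {n : ℕ} (G : SimpleGraph (Fin n)) : Arrows (2 ^ (n + n)) G := by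
  intro R
  rcases ramsey_aux R (n + n) n n rfl univ (by simp) with ⟨S, _, hc, hadj⟩ | ⟨S, _, hc, hadj⟩
  · exact Or.inl (contained_of_clique G R S hc hadj)
  · exact Or.inr (contained_of_clique G Rᶜ S hc hadj)

theorem arrows_ramseyNumber {n : ℕ} (G : SimpleGraph (Fin n)) : Arrows (ramseyNumber G) G :=
  Nat.sInf_mem (s := {N : ℕ | Arrows N G}) ⟨_, arrows_four_pow G⟩

/-- A graph with large vertex cover number. -/
theorem not_arrows_cover {n m : ℕ} (hn : 0 < n) (G : SimpleGraph (Fin n)) (hG : NoIsolated G)
    (hcov : ∀ S : Finset (Fin n), S.card ≤ m → ∃ x y, G.Adj x y ∧ x ∉ S ∧ y ∉ S) :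
    ¬ Arrows (n + m - 1) G := by
  intro hA
  let R : SimpleGraph (Fin (n + m - 1)) :=
    { Adj := fun x y => x ≠ y ∧ ((x : ℕ) < m ∨ (y : ℕ) < m)
      symm := ⟨fun x y h => ⟨h.1.symm, h.2.symm⟩⟩
      loopless := ⟨fun x h => h.1 rfl⟩ }
  rcases hA R with hφ | hφ
  · obtain ⟨φ⟩ := hφ
    have hinj : Function.Injective (fun x => φ x) := φ.injective
    obtain ⟨x, y, hxy, hx, hy⟩ := hcov (univ.filter (fun x => ((φ x : Fin _) : ℕ) < m)) (by
      have : (univ.filter (fun x => ((φ x : Fin _) : ℕ) < m)).card ≤ (range m).card := by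
        refine Finset.card_le_card_of_injOn (fun x => ((φ x : Fin _) : ℕ)) ?_ ?_
        · intro x hx
          simpa using hx
        · intro x _ y _ hxy
          exact hinj (Fin.ext hxy)
      simpa using this)
    simp only [mem_filter, mem_univ, true_and, not_lt] at hx hy
    have h1 : R.Adj (φ x) (φ y) := φ.toHom.map_adj hxy
    rcases h1.2 with h | h <;> omega
  · obtain ⟨φ⟩ := hφ
    have hinj : Function.Injective (fun x => φ x) := φ.injective
    have hge : ∀ x : Fin n, m ≤ ((φ x : Fin _) : ℕ) := by
      intro x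
      obtain ⟨y, hxy⟩ := hG x
      have h1 : Rᶜ.Adj (φ x) (φ y) := φ.toHom.map_adj hxy
      rw [SimpleGraph.compl_adj] at h1
      by_contra hlt
      exact h1.2 ⟨h1.1, Or.inl (by omega)⟩
    have : (univ : Finset (Fin n)).card ≤ (range (n - 1)).card := by
      refine Finset.card_le_card_of_injOn (fun x => ((φ x : Fin _) : ℕ) - m) ?_ ?_
      · intro x _
        have h1 := hge x
        have h2 := (φ x).2
        simp only [coe_range, Set.mem_Iio]
        omega
      · intro x _ y _ hxy
        have h1 := hge x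
        have h2 := hge y
        refine hinj (Fin.ext ?_)
        simp only at hxy ⊢
        omega
    simp at this
    omega

/-- A graph with a small vertex cover. -/
theorem not_contained_of_cover {n m : ℕ} (hmn : m ≤ n) (G : SimpleGraph (Fin n))
    (hG : NoIsolated G) (S : Finset (Fin n)) (hS : S.card ≤ m)
    (hcov : ∀ x y, G.Adj x y → x ∈ S ∨ y ∈ S)
    (Q : SimpleGraph (Fin (n + m - 1)))
    (hQ : ∀ D : Finset (Fin (n + m - 1)), D.card = m →
      m ≤ (univ.filter (fun v => v ∉ D ∧ ∀ d ∈ D, ¬ Q.Adj d v)).card) (hm : 0 < m) :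
    ¬ G.IsContained Q := by
  rintro ⟨φ⟩
  have hinj : Function.Injective (⇑φ) := φ.injective
  obtain ⟨S', hSS', hS'⟩ := Finset.exists_superset_card_eq hS (by simpa using hmn)
  set D := S'.image φ with hD
  have hDc : D.card = m := by
    rw [hD, Finset.card_image_of_injective _ hinj, hS']
  have h1 := hQ D hDc
  have h2 : Disjoint (univ.image φ) (univ.filter (fun v => v ∉ D ∧ ∀ d ∈ D, ¬ Q.Adj d v)) := by
    rw [Finset.disjoint_left]
    intro v hv hv'
    obtain ⟨x, _, rfl⟩ := Finset.mem_image.mp hv
    simp only [mem_filter, mem_univ, true_and] at hv'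
    obtain ⟨y, hxy⟩ := hG x
    rcases hcov x y hxy with h | h
    · exact hv'.1 (Finset.mem_image_of_mem _ (hSS' h))
    · exact hv'.2 (φ y) (Finset.mem_image_of_mem _ (hSS' h)) (φ.toHom.map_adj hxy.symm)
  have h3 := Finset.card_le_univ (univ.image φ ∪ univ.filter (fun v => v ∉ D ∧ ∀ d ∈ D, ¬ Q.Adj d v))
  rw [Finset.card_union_of_disjoint h2, Finset.card_image_of_injective _ hinj] at h3
  simp only [card_univ, Fintype.card_fin] at h3
  omega

theorem sum_prod_indicator {E : Type} [Fintype E] [DecidableEq E] (F : Finset E) (b : Bool) :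
    ∑ c : E → Bool, ∏ e ∈ F, (if c e = b then (1 : ℝ) else 0)
      = 2 ^ Fintype.card E * (1 / 2) ^ F.card := by
  have h1 : ∀ c : E → Bool, ∏ e ∈ F, (if c e = b then (1 : ℝ) else 0)
      = ∏ e : E, (fun (e : E) (x : Bool) => if e ∈ F then (if x = b then (1 : ℝ) else 0) else 1)
          e (c e) := by
    intro c
    simp only []
    rw [Finset.prod_ite_mem]
    simp
  simp_rw [h1]
  have h2 := Finset.sum_prod_piFinset (ι := E) (univ : Finset Bool)
    (fun (e : E) (x : Bool) => if e ∈ F then (if x = b then (1 : ℝ) else 0) else 1)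
  rw [Fintype.piFinset_univ] at h2
  rw [h2]
  have h3 : ∀ e : E, ∑ x : Bool, (if e ∈ F then (if x = b then (1 : ℝ) else 0) else 1)
      = 2 * (if e ∈ F then (1 / 2 : ℝ) else 1) := by
    intro e
    by_cases he : e ∈ F
    · simp [he]
    · simp [he]
  rw [Finset.prod_congr rfl (fun e _ => h3 e), Finset.prod_mul_distrib, Finset.prod_const,
    Finset.prod_ite_mem, Finset.card_univ]
  simp

theorem sum_group {V : Type} [Fintype V] [DecidableEq V] (D T : Finset V) (hDT : Disjoint D T) (b : Bool) :
    ∑ c : Sym2 V → Bool, ∏ v ∈ T, ∏ d ∈ D, (if c s(d, v) = b then (1 : ℝ) else 0)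
      = 2 ^ Fintype.card (Sym2 V) * ((1 / 2) ^ D.card) ^ T.card := by
  have hinj : Set.InjOn (fun p : V × V => s(p.1, p.2)) ((T ×ˢ D : Finset (V × V)).image
      (fun p => (p.2, p.1)) : Set (V × V)) := by
    rintro ⟨a, b⟩ hab ⟨a', b'⟩ hab' h
    simp only [coe_image, Set.mem_image, mem_coe, mem_product, Prod.mk.injEq, Prod.exists] at hab hab'
    obtain ⟨x, y, ⟨hx, hy⟩, rfl, rfl⟩ := hab
    obtain ⟨x', y', ⟨hx', hy'⟩, rfl, rfl⟩ := hab'
    simp only [Sym2.eq_iff] at h
    rcases h with ⟨h1, h2⟩ | ⟨h1, h2⟩
    · rw [h1, h2]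
    · exfalso
      subst h1
      exact (Finset.disjoint_left.mp hDT hy) hx'
  have h1 : ∀ c : Sym2 V → Bool, ∏ v ∈ T, ∏ d ∈ D, (if c s(d, v) = b then (1 : ℝ) else 0)
      = ∏ e ∈ ((T ×ˢ D).image (fun p => (p.2, p.1))).image (fun p : V × V => s(p.1, p.2)),
        (if c e = b then (1 : ℝ) else 0) := by
    intro c
    rw [Finset.prod_image hinj, Finset.prod_image (by
      rintro ⟨x, y⟩ _ ⟨x', y'⟩ _ h
      simp only [Prod.mk.injEq] at h ⊢
      exact ⟨h.2, h.1⟩), Finset.prod_product]
  simp_rw [h1]
  rw [sum_prod_indicator, Finset.card_image_of_injOn hinj, Finset.card_image_of_injective _ (by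
      rintro ⟨x, y⟩ ⟨x', y'⟩ h
      simp only [Prod.mk.injEq] at h ⊢
      exact ⟨h.2, h.1⟩), Finset.card_product, mul_comm T.card D.card, pow_mul]

/-- The colourings for which no vertex of `Γ` is joined to all of `D` in the colour `b`. -/
noncomputable def badSet {V : Type} [Fintype V] [DecidableEq V] (D Γ : Finset V) (b : Bool) :
    Finset (Sym2 V → Bool) :=
  univ.filter (fun c : Sym2 V → Bool => ∀ v ∈ Γ, ¬ ∀ d ∈ D, c s(d, v) = b)

theorem count_event {V : Type} [Fintype V] [DecidableEq V] (D Γ : Finset V)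
    (hD : Disjoint D Γ) (b : Bool) :
    ((badSet D Γ b).card : ℝ)
      = 2 ^ Fintype.card (Sym2 V) * (1 - (1 / 2) ^ D.card) ^ Γ.card := by
  have h1 : ∀ c : Sym2 V → Bool,
      (if (∀ v ∈ Γ, ¬ ∀ d ∈ D, c s(d, v) = b) then (1 : ℝ) else 0)
      = ∏ v ∈ Γ, (1 + (-1) * ∏ d ∈ D, (if c s(d, v) = b then (1 : ℝ) else 0)) := by
    intro c
    have h2 : ∀ v, ∏ d ∈ D, (if c s(d, v) = b then (1 : ℝ) else 0)
        = if (∀ d ∈ D, c s(d, v) = b) then 1 else 0 := by
      intro v
      exact Finset.prod_ite_zero (s := D) (p := fun d => c s(d, v) = b) (f := fun _ => (1 : ℝ))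
        |>.trans (by simp)
    simp_rw [h2]
    split_ifs with h
    · symm
      apply Finset.prod_eq_one
      intro v hv
      rw [if_neg (h v hv)]
      ring
    · push Not at h
      obtain ⟨v, hv, hvd⟩ := h
      symm
      apply Finset.prod_eq_zero hv
      rw [if_pos hvd]
      ring
  rw [badSet, ← Finset.sum_boole, Finset.sum_congr rfl (fun c _ => h1 c)]
  simp_rw [Finset.prod_one_add]
  rw [Finset.sum_comm]
  have h3 : ∀ T ∈ Γ.powerset, ∑ c : Sym2 V → Bool,
      ∏ v ∈ T, ((-1) * ∏ d ∈ D, (if c s(d, v) = b then (1 : ℝ) else 0))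
      = 2 ^ Fintype.card (Sym2 V) * ∏ v ∈ T, (-(1 / 2 : ℝ) ^ D.card) := by
    intro T hT
    have hDT : Disjoint D T := Finset.disjoint_of_subset_right (Finset.mem_powerset.mp hT) hD
    simp_rw [Finset.prod_mul_distrib]
    rw [← Finset.mul_sum, sum_group D T hDT b]
    simp only [Finset.prod_const]
    rw [neg_pow ((1 / 2 : ℝ) ^ D.card)]
    ring
  rw [Finset.sum_congr rfl h3, ← Finset.mul_sum, ← Finset.prod_one_add, Finset.prod_const]
  ring

theorem exists_groups {V : Type} [Fintype V] (m g : ℕ) (D : Finset V)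
    (h : m * g + D.card ≤ Fintype.card V) :
    ∃ Γ : Fin m → Finset V, (∀ j, Disjoint D (Γ j)) ∧ (∀ j, (Γ j).card = g) ∧
      ∀ i j, i ≠ j → Disjoint (Γ i) (Γ j) := by
  have h1 : Fintype.card (Fin m × Fin g) ≤ Fintype.card (Dᶜ : Finset V) := by
    rw [Fintype.card_prod, Fintype.card_fin, Fintype.card_fin, Fintype.card_coe,
      Finset.card_compl]
    omega
  obtain ⟨φ⟩ := Function.Embedding.nonempty_of_card_le h1
  refine ⟨fun j => univ.image (fun a : Fin g => (φ (j, a) : V)), ?_, ?_, ?_⟩
  · intro j
    rw [Finset.disjoint_right]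
    intro v hv
    obtain ⟨a, _, rfl⟩ := Finset.mem_image.mp hv
    have := (φ (j, a)).2
    rwa [Finset.mem_compl] at this
  · intro j
    rw [Finset.card_image_of_injective, card_univ, Fintype.card_fin]
    intro a b hab
    have := φ.injective (Subtype.ext hab)
    simpa using this
  · intro i j hij
    rw [Finset.disjoint_left]
    intro v hv hv'
    obtain ⟨a, _, rfl⟩ := Finset.mem_image.mp hv
    obtain ⟨b, _, hb⟩ := Finset.mem_image.mp hv'
    have := φ.injective (Subtype.ext hb)
    simp only [Prod.mk.injEq] at this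
    exact hij this.1.symm

theorem exists_colouring (N m g : ℕ) (hN : m * g + m ≤ N)
    (hnum : (2 * (N.choose m : ℝ) * m) * (1 - (1 / 2) ^ m) ^ g < 1) :
    ∃ c : Sym2 (Fin N) → Bool, ∀ b : Bool, ∀ D : Finset (Fin N), D.card = m →
      m ≤ (univ.filter (fun v => v ∉ D ∧ ∀ d ∈ D, c s(d, v) = b)).card := by
  have hgr : ∀ D : Finset (Fin N), D.card = m → ∃ Γ : Fin m → Finset (Fin N),
      (∀ j, Disjoint D (Γ j)) ∧ (∀ j, (Γ j).card = g) ∧
      ∀ i j, i ≠ j → Disjoint (Γ i) (Γ j) := by
    intro D hD
    exact exists_groups m g D (by rw [hD, Fintype.card_fin]; exact hN)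
  choose! Γ hΓ1 hΓ2 hΓ3 using hgr
  set I : Finset (Bool × Finset (Fin N) × Fin m) :=
    univ ×ˢ (powersetCard m univ ×ˢ univ) with hI
  set Bad : Bool × Finset (Fin N) × Fin m → Finset (Sym2 (Fin N) → Bool) := fun p =>
    badSet p.2.1 (Γ p.2.1 p.2.2) p.1 with hBad
  have hcI : (I.card : ℝ) = 2 * (N.choose m : ℝ) * m := by
    rw [hI, Finset.card_product, Finset.card_product, Finset.card_powersetCard]
    simp only [card_univ, Fintype.card_bool, Fintype.card_fin]
    push_cast
    ring
  have hlt : ((I.biUnion Bad).card : ℝ) < ((univ : Finset (Sym2 (Fin N) → Bool)).card : ℝ) := by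
    have e1 : ((I.biUnion Bad).card : ℝ) ≤ ∑ p ∈ I, ((Bad p).card : ℝ) := by
      exact_mod_cast Finset.card_biUnion_le
    have e2 : ∀ p ∈ I, ((Bad p).card : ℝ)
        = 2 ^ Fintype.card (Sym2 (Fin N)) * (1 - (1 / 2) ^ m) ^ g := by
      rintro ⟨b, D, j⟩ hp
      simp only [hI, mem_product, mem_univ, true_and, mem_powersetCard, and_true] at hp
      have hDm : D.card = m := hp.2
      have := count_event D (Γ D j) (hΓ1 D hDm j) b
      rw [hDm, hΓ2 D hDm j] at this
      exact this
    rw [Finset.sum_congr rfl e2, Finset.sum_const, nsmul_eq_mul, hcI] at e1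
    have e3 : ((univ : Finset (Sym2 (Fin N) → Bool)).card : ℝ)
        = 2 ^ Fintype.card (Sym2 (Fin N)) := by
      rw [card_univ, Fintype.card_fun, Fintype.card_bool]
      push_cast
      rfl
    rw [e3]
    refine lt_of_le_of_lt e1 ?_
    have hpos : (0 : ℝ) < 2 ^ Fintype.card (Sym2 (Fin N)) := by positivity
    calc 2 * (N.choose m : ℝ) * m * (2 ^ Fintype.card (Sym2 (Fin N)) * (1 - (1 / 2) ^ m) ^ g)
        = 2 ^ Fintype.card (Sym2 (Fin N)) * ((2 * (N.choose m : ℝ) * m) * (1 - (1 / 2) ^ m) ^ g) := by
          ring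
      _ < 2 ^ Fintype.card (Sym2 (Fin N)) * 1 := by
          exact mul_lt_mul_of_pos_left hnum hpos
      _ = _ := mul_one _
  have hlt' : (I.biUnion Bad).card < (univ : Finset (Sym2 (Fin N) → Bool)).card := by
    exact_mod_cast hlt
  obtain ⟨c, _, hc⟩ := Finset.exists_mem_notMem_of_card_lt_card hlt'
  refine ⟨c, fun b D hD => ?_⟩
  have hgood : ∀ j : Fin m, ∃ v ∈ Γ D j, ∀ d ∈ D, c s(d, v) = b := by
    intro j
    by_contra hcon
    push Not at hcon
    apply hc
    rw [Finset.mem_biUnion]
    refine ⟨(b, D, j), ?_, ?_⟩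
    · simp [hI, hD]
    · simp only [hBad, badSet, mem_filter, mem_univ, true_and]
      intro v hv h
      obtain ⟨d, hd, hne⟩ := hcon v hv
      exact hne (h d hd)
  choose v hv1 hv2 using hgood
  have hinj : Function.Injective v := by
    intro i j hij
    by_contra hne
    have := Finset.disjoint_left.mp (hΓ3 D hD i j hne) (hv1 i)
    rw [hij] at this
    exact this (hv1 j)
  have hsub : univ.image v ⊆ univ.filter (fun v => v ∉ D ∧ ∀ d ∈ D, c s(d, v) = b) := by
    intro x hx
    obtain ⟨j, _, rfl⟩ := Finset.mem_image.mp hx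
    simp only [mem_filter, mem_univ, true_and]
    exact ⟨Finset.disjoint_right.mp (hΓ1 D hD j) (hv1 j), hv2 j⟩
  have := Finset.card_le_card hsub
  rwa [Finset.card_image_of_injective _ hinj, card_univ, Fintype.card_fin] at this

theorem exists_random_graph (N m g : ℕ) (hN : m * g + m ≤ N)
    (hnum : (2 * (N.choose m : ℝ) * m) * (1 - (1 / 2) ^ m) ^ g < 1) :
    ∃ R B : SimpleGraph (Fin N), B = Rᶜ ∧
      (∀ D : Finset (Fin N), D.card = m →
        m ≤ (univ.filter (fun v => v ∉ D ∧ ∀ d ∈ D, ¬ R.Adj d v)).card) ∧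
      (∀ D : Finset (Fin N), D.card = m →
        m ≤ (univ.filter (fun v => v ∉ D ∧ ∀ d ∈ D, ¬ B.Adj d v)).card) := by
  obtain ⟨c, hc⟩ := exists_colouring N m g hN hnum
  let R : SimpleGraph (Fin N) :=
    { Adj := fun x y => x ≠ y ∧ c s(x, y) = true
      symm := ⟨fun x y h => ⟨h.1.symm, by rw [Sym2.eq_swap]; exact h.2⟩⟩
      loopless := ⟨fun x h => h.1 rfl⟩ }
  refine ⟨R, Rᶜ, rfl, ?_, ?_⟩
  · intro D hD
    refine (hc false D hD).trans (Finset.card_le_card ?_)
    intro v hv
    simp only [mem_filter, mem_univ, true_and] at hv ⊢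
    refine ⟨hv.1, fun d hd hadj => ?_⟩
    have h1 := hv.2 d hd
    have h2 : c s(d, v) = true := hadj.2
    rw [h1] at h2
    exact Bool.noConfusion h2
  · intro D hD
    refine (hc true D hD).trans (Finset.card_le_card ?_)
    intro v hv
    simp only [mem_filter, mem_univ, true_and] at hv ⊢
    refine ⟨hv.1, fun d hd hadj => ?_⟩
    rw [SimpleGraph.compl_adj] at hadj
    exact hadj.2 ⟨hadj.1, hv.2 d hd⟩

theorem two_rpow_ge (L : ℝ) (hL : 4 ≤ L) : 4 * L ≤ (2 : ℝ) ^ L := by
  have h1 : (2 : ℝ) ^ L = 16 * (2 : ℝ) ^ (L - 4) := by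
    rw [Real.rpow_sub (by norm_num)]
    norm_num
    ring
  have h2 : (2 : ℝ) ^ (L - 4) = Real.exp (Real.log 2 * (L - 4)) := by
    rw [Real.rpow_def_of_pos (by norm_num)]
  have h3 := Real.add_one_le_exp (Real.log 2 * (L - 4))
  have h4 : (0.6931471803 : ℝ) < Real.log 2 := Real.log_two_gt_d9
  rw [h1, h2]
  nlinarith

theorem numeric (n m : ℕ) (L : ℝ) (hn : 0 < n) (hL : L = Real.logb 2 n) (hL4 : 4 ≤ L)
    (hm1 : 1 ≤ m) (hmL : (m : ℝ) ≤ L - 4 * Real.logb 2 L) :
    (2 * ((n + m - 1).choose m : ℝ) * m) * (1 - (1 / 2) ^ m) ^ ((n - 1) / m) < 1 := by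
  have hnpos : (0 : ℝ) < n := by exact_mod_cast hn
  have hn2 : (n : ℝ) = (2 : ℝ) ^ L := by
    rw [hL, Real.rpow_logb (by norm_num) (by norm_num) hnpos]
  have hnL : 4 * L ≤ n := by
    rw [hn2]
    exact two_rpow_ge L hL4
  have hLpos : 0 < L := by linarith
  have hlogL : 0 ≤ Real.logb 2 L := Real.logb_nonneg (by norm_num) (by linarith)
  have hmL' : (m : ℝ) ≤ L := by linarith
  have hmpos : (0 : ℝ) < m := by exact_mod_cast hm1
  have hmn : 4 * m ≤ n := by
    have : (4 * m : ℝ) ≤ n := by linarith
    exact_mod_cast this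
  -- lower bound for (1/2)^m
  have hhalf : L ^ 4 / n ≤ (1 / 2 : ℝ) ^ m := by
    have e1 : (2 : ℝ) ^ (m : ℝ) ≤ (2 : ℝ) ^ (L - 4 * Real.logb 2 L) :=
      Real.rpow_le_rpow_of_exponent_le (by norm_num) hmL
    have e2 : (2 : ℝ) ^ (4 * Real.logb 2 L) = L ^ 4 := by
      rw [mul_comm, Real.rpow_mul (by norm_num), Real.rpow_logb (by norm_num) (by norm_num) hLpos]
      norm_cast
    rw [Real.rpow_sub (by norm_num), ← hn2, e2, Real.rpow_natCast] at e1
    have e3 : (0 : ℝ) < L ^ 4 := by positivity
    rw [one_div, inv_pow, div_le_iff₀ hnpos, inv_mul_eq_div, le_div_iff₀ (by positivity)]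
    rw [le_div_iff₀ e3] at e1
    linarith
  -- the number of blocks
  have hg : (3 / 4 : ℝ) * n ≤ L * (((n - 1) / m : ℕ) : ℝ) := by
    have e1 : n ≤ m * ((n - 1) / m) + m := by
      have := Nat.lt_mul_div_succ (n - 1) (show 0 < m by omega)
      have e : m * ((n - 1) / m + 1) = m * ((n - 1) / m) + m := by ring
      omega
    have e2 : (n : ℝ) ≤ m * (((n - 1) / m : ℕ) : ℝ) + m := by exact_mod_cast e1
    have e3 : (4 * m : ℝ) ≤ n := by exact_mod_cast hmn
    have e4 : (m : ℝ) * (((n - 1) / m : ℕ) : ℝ) ≤ L * (((n - 1) / m : ℕ) : ℝ) :=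
      mul_le_mul_of_nonneg_right hmL' (by positivity)
    linarith
  set g := (n - 1) / m with hgdef
  have hexp : (1 - (1 / 2 : ℝ) ^ m) ^ g ≤ Real.exp (-(3 / 4 * L ^ 3)) := by
    have e1 : (1 - (1 / 2 : ℝ) ^ m) ≤ Real.exp (-(1 / 2 : ℝ) ^ m) := Real.one_sub_le_exp_neg _
    have e0 : 0 ≤ (1 - (1 / 2 : ℝ) ^ m) := by
      have : (1 / 2 : ℝ) ^ m ≤ 1 := pow_le_one₀ (by norm_num) (by norm_num)
      linarith
    refine (pow_le_pow_left₀ e0 e1 g).trans ?_
    rw [← Real.exp_nat_mul]
    apply Real.exp_le_exp.mpr
    have e2 : (g : ℝ) * (L ^ 4 / n) ≤ g * (1 / 2 : ℝ) ^ m :=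
      mul_le_mul_of_nonneg_left hhalf (by positivity)
    have e3 : 3 / 4 * L ^ 3 ≤ (g : ℝ) * (L ^ 4 / n) := by
      have : (g : ℝ) * (L ^ 4 / n) = (L * g) * L ^ 3 / n := by
        field_simp
      rw [this, le_div_iff₀ hnpos]
      have h3 : 0 ≤ L ^ 3 := by positivity
      nlinarith [mul_le_mul_of_nonneg_right hg h3]
    linarith
  have hchoose : (2 * ((n + m - 1).choose m : ℝ) * m) ≤ Real.exp (L ^ 2 + 2 * L) := by
    have e1 : ((n + m - 1).choose m : ℝ) ≤ (2 * n : ℝ) ^ m := by
      have h1 : (n + m - 1).choose m ≤ (n + m - 1) ^ m := Nat.choose_le_pow _ _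
      have h2 : (n + m - 1) ^ m ≤ (2 * n) ^ m := Nat.pow_le_pow_left (by omega) m
      exact_mod_cast h1.trans h2
    have e2 : (2 * m : ℝ) ≤ n := by linarith
    have e3 : (2 * ((n + m - 1).choose m : ℝ) * m) ≤ (2 * n : ℝ) ^ m * n := by
      have : (2 * ((n + m - 1).choose m : ℝ) * m) = ((n + m - 1).choose m : ℝ) * (2 * m) := by ring
      rw [this]
      exact mul_le_mul e1 e2 (by positivity) (by positivity)
    refine e3.trans ?_
    have hlog2 : Real.log 2 ≤ 1 := by
      have := Real.log_two_lt_d9
      linarith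
    have hlog2' : 0 ≤ Real.log 2 := Real.log_nonneg (by norm_num)
    have e4 : (n : ℝ) ≤ Real.exp L := by
      rw [hn2, Real.rpow_def_of_pos (by norm_num)]
      apply Real.exp_le_exp.mpr
      nlinarith
    have e5 : (2 * n : ℝ) ≤ Real.exp (L + 1) := by
      rw [Real.exp_add]
      have : (2 : ℝ) ≤ Real.exp 1 := by
        have := Real.exp_one_gt_d9
        linarith
      nlinarith [Real.exp_pos L]
    have e6 : (2 * n : ℝ) ^ m ≤ Real.exp (L * (L + 1)) := by
      refine (pow_le_pow_left₀ (by positivity) e5 m).trans ?_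
      rw [← Real.exp_nat_mul]
      apply Real.exp_le_exp.mpr
      exact mul_le_mul_of_nonneg_right hmL' (by linarith)
    calc (2 * n : ℝ) ^ m * n ≤ Real.exp (L * (L + 1)) * Real.exp L :=
          mul_le_mul e6 e4 (by positivity) (by positivity)
      _ = Real.exp (L ^ 2 + 2 * L) := by
          rw [← Real.exp_add]
          congr 1
          ring
  calc (2 * ((n + m - 1).choose m : ℝ) * m) * (1 - (1 / 2) ^ m) ^ g
      ≤ Real.exp (L ^ 2 + 2 * L) * Real.exp (-(3 / 4 * L ^ 3)) := by
        apply mul_le_mul hchoose hexp _ (by positivity)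
        apply pow_nonneg
        have : (1 / 2 : ℝ) ^ m ≤ 1 := pow_le_one₀ (by norm_num) (by norm_num)
        linarith
    _ = Real.exp (L ^ 2 + 2 * L - 3 / 4 * L ^ 3) := by
        rw [← Real.exp_add]
        congr 1
    _ < 1 := by
        rw [Real.exp_lt_one_iff]
        nlinarith [mul_pos hLpos hLpos, mul_nonneg (mul_pos hLpos hLpos).le (sub_nonneg.mpr hL4)]

theorem not_arrows {n m g : ℕ} (hm : 0 < m) (hmn : m ≤ n) (hg : m * g + m ≤ n + m - 1)
    (hnum : (2 * ((n + m - 1).choose m : ℝ) * m) * (1 - (1 / 2) ^ m) ^ g < 1)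
    (G : SimpleGraph (Fin n)) (hG : NoIsolated G) : ¬ Arrows (n + m - 1) G := by
  by_cases hcov : ∃ S : Finset (Fin n), S.card ≤ m ∧ ∀ x y, G.Adj x y → x ∈ S ∨ y ∈ S
  · obtain ⟨S, hS, hcov⟩ := hcov
    obtain ⟨R, B, hB, hR1, hR2⟩ := exists_random_graph (n + m - 1) m g hg hnum
    intro hA
    rcases hA R with h | h
    · exact not_contained_of_cover hmn G hG S hS hcov R hR1 hm h
    · rw [← hB] at h
      exact not_contained_of_cover hmn G hG S hS hcov B hR2 hm h
  · refine not_arrows_cover (by omega) G hG ?_
    intro S hS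
    by_contra hcon
    apply hcov
    refine ⟨S, hS, ?_⟩
    intro x y hxy
    by_contra hxy'
    push Not at hxy'
    exact hcon ⟨x, y, hxy, hxy'.1, hxy'.2⟩

theorem exists_noIsolated {n : ℕ} (hn : 2 ≤ n) : ∃ G : SimpleGraph (Fin n), NoIsolated G := by
  have : Nontrivial (Fin n) := Fin.nontrivial_iff_two_le.mpr hn
  refine ⟨⊤, fun v => ?_⟩
  obtain ⟨w, hw⟩ := exists_ne v
  exact ⟨w, hw.symm⟩

/-- The minimum defining `f(n)` is attained. -/
theorem f_spec {n : ℕ} (hn : 2 ≤ n) :
    ∃ G : SimpleGraph (Fin n), NoIsolated G ∧ ramseyNumber G = f n := by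
  obtain ⟨G, hG⟩ := exists_noIsolated hn
  exact Nat.sInf_mem (s := {r : ℕ | ∃ G : SimpleGraph (Fin n), NoIsolated G ∧ ramseyNumber G = r})
    ⟨_, G, hG, rfl⟩

theorem f_lower (n m : ℕ) (L : ℝ) (hn : 2 ≤ n) (hL : L = Real.logb 2 n) (hL4 : 4 ≤ L)
    (hm1 : 1 ≤ m) (hmL : (m : ℝ) ≤ L - 4 * Real.logb 2 L) : n + m ≤ f n := by
  obtain ⟨G, hG, hf⟩ := f_spec hn
  rw [← hf]
  by_contra hlt
  push Not at hlt
  have hA : Arrows (n + m - 1) G := (arrows_ramseyNumber G).mono (by omega)
  have hnum := numeric n m L (by omega) hL hL4 hm1 hmL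
  have hnpos : (0 : ℝ) < n := by exact_mod_cast (show 0 < n by omega)
  have hmn : m ≤ n := by
    have hn2 : (n : ℝ) = (2 : ℝ) ^ L := by
      rw [hL, Real.rpow_logb (by norm_num) (by norm_num) hnpos]
    have h4 := two_rpow_ge L hL4
    rw [← hn2] at h4
    have hlogL : 0 ≤ Real.logb 2 L := Real.logb_nonneg (by norm_num) (by linarith)
    have : (m : ℝ) ≤ n := by linarith
    exact_mod_cast this
  refine not_arrows (by omega) hmn ?_ hnum G hG hA
  have := Nat.mul_div_le (n - 1) m
  omega

theorem bounds_eventually : ∀ᶠ n : ℕ in Filter.atTop,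
    (n : ℝ) + Real.logb 2 n - 5 * Real.logb 2 (Real.logb 2 n) ≤ f n ∧
      (f n : ℝ) ≤ n + Real.logb 2 n + 4 := by
  have hL : Filter.Tendsto (fun n : ℕ => Real.logb 2 n) Filter.atTop Filter.atTop :=
    (Real.tendsto_logb_atTop (by norm_num)).comp tendsto_natCast_atTop_atTop
  have hlo : ∀ᶠ x : ℝ in Filter.atTop, 4 * Real.logb 2 x ≤ x / 2 := by
    have h := Real.isLittleO_log_id_atTop.bound (show (0 : ℝ) < Real.log 2 / 8 by positivity)
    filter_upwards [h, Filter.eventually_ge_atTop 1] with x hx hx1
    have hlog : 0 ≤ Real.log x := Real.log_nonneg hx1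
    have hl2 : 0 < Real.log 2 := Real.log_pos (by norm_num)
    rw [Real.norm_of_nonneg hlog, id, Real.norm_of_nonneg (by linarith)] at hx
    rw [Real.logb]
    have : Real.log x / Real.log 2 ≤ x / 8 := by
      rw [div_le_iff₀ hl2]
      linarith
    linarith
  filter_upwards [hL.eventually hlo, hL.eventually (Filter.eventually_ge_atTop 4),
    Filter.eventually_ge_atTop 2] with n h1 h2 hn
  set L := Real.logb 2 n with hLdef
  have hnpos : (0 : ℝ) < n := by exact_mod_cast (show 0 < n by omega)
  constructor
  · set m := ⌊L - 4 * Real.logb 2 L⌋₊ with hm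
    have hx : 0 ≤ L - 4 * Real.logb 2 L := by linarith
    have hm1 : 1 ≤ m := by
      rw [hm]
      exact Nat.le_floor (by push_cast; linarith)
    have h3 := f_lower n m L hn hLdef h2 hm1 (Nat.floor_le hx)
    have h4 : (n : ℝ) + m ≤ f n := by exact_mod_cast h3
    have h5 : L - 4 * Real.logb 2 L < m + 1 := Nat.lt_floor_add_one _
    have h6 : 1 ≤ Real.logb 2 L := by
      rw [Real.le_logb_iff_rpow_le (by norm_num) (by linarith)]
      norm_num
      linarith
    linarith
  · have h3 : f n ≤ n + (Nat.log 2 n + 4) := f_upper n hn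
    have h4 : (f n : ℝ) ≤ n + (Nat.log 2 n + 4) := by exact_mod_cast h3
    have h5 : (Nat.log 2 n : ℝ) ≤ L := by
      rw [hLdef, Real.le_logb_iff_rpow_le (by norm_num) hnpos, Real.rpow_natCast]
      exact_mod_cast Nat.pow_log_le_self 2 (by omega)
    linarith

theorem tendsto_main :
    Filter.Tendsto (fun n : ℕ => ((f n : ℝ) - n) / Real.logb 2 n) Filter.atTop (nhds 1) := by
  have hL : Filter.Tendsto (fun n : ℕ => Real.logb 2 n) Filter.atTop Filter.atTop :=
    (Real.tendsto_logb_atTop (by norm_num)).comp tendsto_natCast_atTop_atTop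
  have hratio : Filter.Tendsto (fun x : ℝ => Real.logb 2 x / x) Filter.atTop (nhds 0) := by
    have h1 : Filter.Tendsto (fun x : ℝ => Real.log x / x) Filter.atTop (nhds 0) := by
      have := Real.isLittleO_log_id_atTop.tendsto_div_nhds_zero
      simpa using this
    have h2 := h1.div_const (Real.log 2)
    simp only [zero_div] at h2
    refine h2.congr fun x => ?_
    rw [Real.logb]
    ring
  have hlow : Filter.Tendsto (fun n : ℕ => 1 - 5 * (Real.logb 2 (Real.logb 2 n) / Real.logb 2 n))
      Filter.atTop (nhds 1) := by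
    have h1 := (hratio.comp hL).const_mul 5
    have h2 := h1.const_sub 1
    simpa using h2
  have hup : Filter.Tendsto (fun n : ℕ => 1 + 4 / Real.logb 2 n) Filter.atTop (nhds 1) := by
    have h1 : Filter.Tendsto (fun n : ℕ => 4 / Real.logb 2 n) Filter.atTop (nhds 0) :=
      hL.const_div_atTop 4
    have h2 := h1.const_add 1
    simpa using h2
  refine tendsto_of_tendsto_of_tendsto_of_le_of_le' hlow hup ?_ ?_
  · filter_upwards [bounds_eventually, hL.eventually (Filter.eventually_gt_atTop 0)] with n hb hpos
    rw [le_div_iff₀ hpos]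
    have h1 := hb.1
    have e : (1 - 5 * (Real.logb 2 (Real.logb 2 n) / Real.logb 2 n)) * Real.logb 2 n
        = Real.logb 2 n - 5 * Real.logb 2 (Real.logb 2 n) := by
      field_simp
    rw [e]
    linarith
  · filter_upwards [bounds_eventually, hL.eventually (Filter.eventually_gt_atTop 0)] with n hb hpos
    rw [div_le_iff₀ hpos]
    have h1 := hb.2
    have e : (1 + 4 / Real.logb 2 n) * Real.logb 2 n = Real.logb 2 n + 4 := by
      field_simp
    rw [e]
    linarith

/-- `f(n) ≤ n + log_2 n + 4` for all `n ≥ 2`; `f(n) ≥ n + log_2 n - 5 log_2 log_2 n` for all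
large `n`; hence `(f(n) - n) / log_2 n → 1`, that is `f(n) = n + (1 + o(1)) log_2 n`. -/
theorem result :
    (∀ n : ℕ, 2 ≤ n → (f n : ℝ) ≤ n + Real.logb 2 n + 4) ∧
    (∀ᶠ n : ℕ in Filter.atTop,
      (n : ℝ) + Real.logb 2 n - 5 * Real.logb 2 (Real.logb 2 n) ≤ f n) ∧
    Filter.Tendsto (fun n : ℕ => ((f n : ℝ) - n) / Real.logb 2 n) Filter.atTop (nhds 1) := by
  refine ⟨?_, bounds_eventually.mono fun n h => h.1, tendsto_main⟩
  intro n hn
  have hnpos : (0 : ℝ) < n := by exact_mod_cast (show 0 < n by omega)
  have h3 : f n ≤ n + (Nat.log 2 n + 4) := f_upper n hn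
  have h4 : (f n : ℝ) ≤ n + (Nat.log 2 n + 4) := by exact_mod_cast h3
  have h5 : (Nat.log 2 n : ℝ) ≤ Real.logb 2 n := by
    rw [Real.le_logb_iff_rpow_le (by norm_num) hnpos, Real.rpow_natCast]
    exact_mod_cast Nat.pow_log_le_self 2 (by omega)
  linarith

end Pool.Agent.Results.MP_624632_co.MinRamseyAsymptotics
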